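import Mathlib
import Pool.Agent.Q99.QP.Surf

/-!
`X` is a Riemann surface and `φ : X → ℂ` a proper holomorphic map onto the open unit disc, a
two-sheeted branched covering with interchange of sheets `σ`; its critical values `β k` are
infinitely many and satisfy the Blaschke condition, `B` is the Blaschke product with simple zeros
`β k` (times a unimodular constant `c`) and `ϑ ^ 2 = B ∘ φ`. Then, for every `ξ` in the open unit
disc, the map `(ξ - ϑ) / (1 - conj ξ * ϑ)` is not a product of two quasi-proper maps.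
-/

set_option autoImplicit false

open scoped Manifold ContDiff
open Pool.Agent.Q99.QP
open Pool.Agent.TH222.QP (B BSeq)

namespace Pool.Agent.Results.MP_c9945a_an.Irreducible

theorem result (X : Type) [TopologicalSpace X] [ChartedSpace ℂ X] [IsManifold 𝓘(ℂ) ω X]
    (φ : X → ℂ) (σ : X → X) (hφ : TwoSheeted φ σ)
    (β : ℕ → ℂ) (hinj : Function.Injective β) (hβ : BSeq β)
    (hcrit : Set.range β = φ '' Crit φ)
    (c : ℂ) (hc : ‖c‖ = 1) (ϑ : X → ℂ) (hϑ : Holo ϑ) (hsq : ∀ x, ϑ x ^ 2 = c * B β (φ x))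
    (ξ : ℂ) (hξ : ‖ξ‖ < 1) :
    ¬ ∃ θ₁ θ₂ : X → ℂ, QuasiProper θ₁ ∧ QuasiProper θ₂ ∧
      ∀ x, (ξ - ϑ x) / (1 - (starRingEnd ℂ) ξ * ϑ x) = θ₁ x * θ₂ x := by
  rintro ⟨θ₁, θ₂, h₁, h₂, hprod⟩
  have A := hφ.alg (by rw [← hcrit]; exact Set.countable_range β)
  -- a square root of the constant
  obtain ⟨d, hd⟩ : ∃ d : ℂ, d ^ 2 = c :=
    ⟨c ^ (((2:ℕ):ℂ)⁻¹), Complex.cpow_nat_inv_pow _ two_ne_zero⟩
  have hdn : ‖d‖ = 1 := by
    have h := congrArg norm hd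
    rw [norm_pow, hc] at h
    nlinarith [norm_nonneg d]
  have hd0 : d ≠ 0 := fun h => by rw [h, norm_zero] at hdn; exact zero_ne_one hdn
  have hin : ‖d⁻¹‖ = 1 := by rw [norm_inv, hdn, inv_one]
  have hcd : (starRingEnd ℂ) d⁻¹ * d⁻¹ = 1 := by
    rw [mul_comm, Complex.mul_conj, Complex.normSq_eq_norm_sq, hin]; simp
  have hϑ' : Holo fun x => d⁻¹ * ϑ x := A.mul _ _ (A.const _) hϑ
  have hsq' : ∀ x, (d⁻¹ * ϑ x) ^ 2 = B β (φ x) := fun x => by
    rw [mul_pow, hsq, ← hd]; field_simp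
  have hξ' : ‖d⁻¹ * ξ‖ < 1 := by rw [norm_mul, hin, one_mul]; exact hξ
  have h₁' : QPr (Holo (X := X)) fun x => d⁻¹ * θ₁ x := by
    refine ⟨A.mul _ _ (A.const _) h₁.1, fun x => ?_, fun f hf => ?_⟩
    · rw [norm_mul, hin, one_mul]; exact h₁.2.1 x
    · rw [h₁.2.2 f hf]
      refine iSup_congr fun x => ?_
      have e : ‖d⁻¹ * θ₁ x * f x‖ = ‖θ₁ x * f x‖ := by
        rw [mul_assoc, norm_mul, hin, one_mul]
      rw [← ofReal_norm, ← ofReal_norm, e]
  refine A.irreducible hβ hinj hϑ' hsq' hξ' h₁' h₂ fun x => ?_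
  have e1 : (starRingEnd ℂ) (d⁻¹ * ξ) * (d⁻¹ * ϑ x) = (starRingEnd ℂ) ξ * ϑ x := by
    rw [map_mul]
    linear_combination ((starRingEnd ℂ) ξ * ϑ x) * hcd
  rw [e1, ← mul_sub, mul_div_assoc, hprod, mul_assoc]

end Pool.Agent.Results.MP_c9945a_an.Irreducible
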